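import Pool.Agent.K3h93.EA.Two

set_option autoImplicit false

/-!
# Edwards-Anderson ground states on `ℤ²`: at most one covariant choice

The couplings are iid with any law without atoms and with a finite first moment.

A *covariant family* of ground states chooses for almost every realisation `J` of the couplings a
ground state `S ω J`; the choice may use an additional random element `ω` which is independent of
the couplings. It is covariant under translations (of the couplings and of `ω`), and when finitely
many couplings are changed (with the same `ω`) then the chosen ground state changes at finitely many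
sites only, in both cases up to a global flip.

**Theorem.** Any two covariant families, whatever additional randomness they use, choose the same
pair of ground states almost surely. In particular a covariant family does not depend on its
additional random element, and two different pairs of ground states can not be chosen in a covariant
way.

Proof. Let `D` be the difference of the changes of the ground state energies of the two families
when the couplings in a box of side `L` are resampled. It is at most `4` times the sum of the
absolute values of the couplings across the boundary of the box, that is of order `L`. On the other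
hand the law of the couplings in the box can be tilted: the couplings in the blocks of side `N` get
the density `1 + (H N / L) g` with a bounded centered function `g` of the couplings in the block.
For every `H` the tilted law has a density which is bounded in `L²` uniformly in `L`, every block
has only a small tilt, and the expectation of `D` under the tilted law is `L H` times the
expectation of `g D_b / N` where `D_b` belongs to the single block. As `H` is arbitrary, this
expectation vanishes for all `g`. So the conditional expectation of `D_b`, given the couplings in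
the block, vanishes for all blocks. With larger and larger blocks this gives `D = 0` for all changes
of the couplings, and the change of the energy, when one coupling is changed, determines the
product of the spins at this bond.
-/

open MeasureTheory

namespace Pool.Agent.Results.MP_37ff18_mp.CovariantPlane

/-- The bond `(v, i)` joins the sites `v` and `v + e_i` of `ℤ²`. -/
abbrev Bond : Type := (Fin 2 → ℤ) × Fin 2

/-- `σ` is an infinite-volume ground state for the couplings `J`: every change at finitely many
sites (at least one) increases the energy `-∑ J_e σ σ` (the sum of the differences over all bonds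
is a finite sum). -/
def IsGroundState (J : Bond → ℝ) (σ : (Fin 2 → ℤ) → ℝ) : Prop :=
  (∀ x, σ x = 1 ∨ σ x = -1) ∧
  ∀ ρ : (Fin 2 → ℤ) → ℝ, (∀ x, ρ x = 1 ∨ ρ x = -1) → {x | ρ x ≠ σ x}.Finite → ρ ≠ σ →
    0 < ∑ᶠ e : Bond, J e * (σ e.1 * σ (e.1 + (Pi.single e.2 (1 : ℤ) : Fin 2 → ℤ))
      - ρ e.1 * ρ (e.1 + (Pi.single e.2 (1 : ℤ) : Fin 2 → ℤ)))

open Classical in
/-- The couplings `J` with those in the finite set `F` replaced by the values of `J'`. -/
noncomputable def replace (F : Finset Bond) (J J' : Bond → ℝ) : Bond → ℝ :=
  fun e => if e ∈ F then J' e else J e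

/-- A covariant family of ground states for iid couplings of law `μ`; `S ω J` is the ground state
which is chosen for the couplings `J`, and `ω` is an additional random element of law `Q`,
independent of the couplings. The translation by `a` acts on it by `τ a`. -/
structure IsCovariant {Ω : Type*} [MeasurableSpace Ω] (μ : Measure ℝ) (Q : Measure Ω)
    (τ : (Fin 2 → ℤ) → Ω → Ω) (S : Ω → (Bond → ℝ) → (Fin 2 → ℤ) → ℝ) : Prop where
  /-- the translations preserve the law of the additional random element -/
  preserving : ∀ a, MeasurePreserving (τ a) Q Q
  /-- the choice is measurable -/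
  measurable : Measurable fun q : Ω × (Bond → ℝ) => S q.1 q.2
  /-- almost surely a ground state is chosen -/
  ground : ∀ᵐ q ∂(Q.prod (Measure.infinitePi fun _ : Bond => μ)), IsGroundState q.2 (S q.1 q.2)
  /-- covariance under translations, up to a global flip -/
  translation : ∀ a : Fin 2 → ℤ, ∀ᵐ q ∂(Q.prod (Measure.infinitePi fun _ : Bond => μ)),
    (∀ x, S (τ a q.1) (fun e => q.2 (e.1 + a, e.2)) x = S q.1 q.2 (x + a)) ∨
      (∀ x, S (τ a q.1) (fun e => q.2 (e.1 + a, e.2)) x = -S q.1 q.2 (x + a))
  /-- covariance under changes of finitely many couplings, up to a global flip -/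
  couplings : ∀ F : Finset Bond,
    ∀ᵐ r ∂(Q.prod ((Measure.infinitePi fun _ : Bond => μ).prod
      (Measure.infinitePi fun _ : Bond => μ))),
        {x | S r.1 (replace F r.2.1 r.2.2) x ≠ S r.1 r.2.1 x}.Finite ∨
          {x | S r.1 (replace F r.2.1 r.2.2) x ≠ -S r.1 r.2.1 x}.Finite

open Pool.Agent.K3h93.EA

lemma gs_of {J : Bond → ℝ} {σ : (Fin 2 → ℤ) → ℝ} (h : IsGroundState J σ) :
    GS Set.univ J σ := by
  refine ⟨h.1, fun ρ hρ hs => ?_⟩
  by_cases he : ρ = σ
  · subst he
    unfold WD
    simp
  · exact (h.2 ρ hρ hs.1 he).le

lemma replace_eq (F : Finset Bond) (J J' : Bond → ℝ) :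
    replace F J J' = patch (F : Set E) J J' := by
  funext e
  unfold replace patch
  simp only [Finset.mem_coe]

lemma cov_of {Ω : Type*} [MeasurableSpace Ω] {μ : Measure ℝ} {Q : Measure Ω}
    {τ : (Fin 2 → ℤ) → Ω → Ω} {S : Ω → (Bond → ℝ) → (Fin 2 → ℤ) → ℝ}
    (h : IsCovariant μ Q τ S) : Cov μ Q τ S := by
  refine ⟨h.preserving, h.measurable, ?_, ?_, ?_⟩
  · filter_upwards [h.ground] with q hq
    exact gs_of hq
  · intro a
    filter_upwards [h.translation a] with q hq e
    have e1 : (st a e).1 = e.1 + a := rfl
    have e2 : e.1 + a + (Pi.single e.2 (1 : ℤ) : V) =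
        e.1 + (Pi.single e.2 (1 : ℤ) : V) + a := by ring
    rcases hq with hq | hq
    · show S (τ a q.1) (sh a q.2) e.1 * S (τ a q.1) (sh a q.2) _ =
        S q.1 q.2 (e.1 + a) * S q.1 q.2 (e.1 + a + (Pi.single e.2 (1 : ℤ) : V))
      have h1 := hq e.1
      have h2 := hq (e.1 + (Pi.single e.2 (1 : ℤ) : V))
      rw [e2]
      exact congrArg₂ (· * ·) h1 h2
    · show S (τ a q.1) (sh a q.2) e.1 * S (τ a q.1) (sh a q.2) _ =
        S q.1 q.2 (e.1 + a) * S q.1 q.2 (e.1 + a + (Pi.single e.2 (1 : ℤ) : V))
      have h1 : S (τ a q.1) (sh a q.2) e.1 = -S q.1 q.2 (e.1 + a) := hq e.1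
      have h2 : S (τ a q.1) (sh a q.2) (e.1 + (Pi.single e.2 (1 : ℤ) : V)) =
        -S q.1 q.2 (e.1 + (Pi.single e.2 (1 : ℤ) : V) + a) :=
        hq (e.1 + (Pi.single e.2 (1 : ℤ) : V))
      rw [e2, h1, h2, neg_mul_neg]
  · intro F
    filter_upwards [h.couplings F] with r hr
    rw [replace_eq] at hr
    rcases hr with hr | hr
    · exact Or.inl ⟨hr, fun x _ => Set.mem_univ x⟩
    · refine Or.inr ⟨hr.subset fun x hx => ?_, fun x _ => Set.mem_univ x⟩
      intro h1
      apply hx
      rw [Pi.neg_apply, h1, neg_neg]

/-- **At most one covariant family of ground states in the plane.** Let the couplings be iid with an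
atomless law `μ` of finite mean. Two covariant families of ground states, which may use additional
independent random elements `ω` and `ω'`, choose the same pair of ground states for almost all
couplings and almost all `ω`, `ω'`. -/
theorem result (μ : Measure ℝ) [IsProbabilityMeasure μ] (hatom : ∀ x, μ {x} = 0)
    (hmean : Integrable (fun x : ℝ => x) μ)
    {Ω Ω' : Type*} [MeasurableSpace Ω] [MeasurableSpace Ω']
    (Q : Measure Ω) (Q' : Measure Ω') [IsProbabilityMeasure Q] [IsProbabilityMeasure Q']
    (τ : (Fin 2 → ℤ) → Ω → Ω) (τ' : (Fin 2 → ℤ) → Ω' → Ω')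
    (S : Ω → (Bond → ℝ) → (Fin 2 → ℤ) → ℝ) (S' : Ω' → (Bond → ℝ) → (Fin 2 → ℤ) → ℝ)
    (hS : IsCovariant μ Q τ S) (hS' : IsCovariant μ Q' τ' S') :
    ∀ᵐ q ∂((Q.prod Q').prod (Measure.infinitePi fun _ : Bond => μ)),
      S' q.1.2 q.2 = S q.1.1 q.2 ∨ S' q.1.2 q.2 = -S q.1.1 q.2 :=
  two hmean hatom (cov_of hS) (cov_of hS')

end Pool.Agent.Results.MP_37ff18_mp.CovariantPlane
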