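import Pool.Agent.K3h91.CV.Cut

/-!
# Edwards-Anderson ground states and the critical values of the couplings

Let the couplings on the bonds of an infinite connected locally finite graph (for instance `ℤ^d`) be
independent, with laws `μ e` without atoms. Fix a finite set `B` of sites, a boundary condition `η`
outside `B` and a bond `e`. There is a critical value, which does not depend on the coupling `J e`:
the ground state in `B` satisfies `σ σ' = 1` at the ends of `e` if `J e` is above the critical value
and `σ σ' = -1` if `J e` is below it. Let `[lowest, highest]` be the interval of the critical values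
of `e` for all boundary conditions `η`; it decreases if `B` increases. There is almost surely exactly
one pair of ground states on the infinite graph if and only if the `μ e`-measure of this interval
tends to zero almost surely for every bond `e`; for laws of full support, if and only if its length
tends to zero. This gives uniqueness on all graphs where finite sets of sites can be enclosed by
boundaries `∂B` with arbitrarily small `∑ |J|`, for instance with infinitely many disjoint boundaries
of bounded size, if the couplings are iid and can be small.

Outline. If two ground states differ at `e` then `J e` is in the interval, for every `B`; the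
interval is independent of `J e`, so this has probability zero if the measure of the interval tends
to zero. If it does not, then with positive probability `J e` is between two rational numbers which
are both in the interior of the intervals of all `B`; then for every `B` there are ground states in
`B` of both kinds, and their limits are two ground states which differ at `e`.
-/

set_option autoImplicit false

open MeasureTheory Filter

namespace Pool.Agent.Results.MP_37ff18_mp.CriticalValues

variable {V E : Type}

/-- The graph with sites `V` and bonds `E`, where the bond `e` joins `a e` and `b e`, has no loops, is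
locally finite and connected. -/
structure IsGraph (a b : E → V) : Prop where
  no_loop : ∀ e, a e ≠ b e
  locally_finite : ∀ x, {e | a e = x ∨ b e = x}.Finite
  connected : ∀ S : Set V, S.Nonempty → (∀ e, a e ∈ S ↔ b e ∈ S) → S = Set.univ

/-- A spin configuration. -/
def IsConfiguration (σ : V → ℝ) : Prop := ∀ x, σ x = 1 ∨ σ x = -1

/-- `σ` is an infinite-volume ground state for the couplings `J`: every change at finitely many sites
(at least one) increases the energy `-∑ J_e σ σ`. -/
def IsGroundState (a b : E → V) (J : E → ℝ) (σ : V → ℝ) : Prop :=
  IsConfiguration σ ∧ ∀ ρ : V → ℝ, IsConfiguration ρ → {x | ρ x ≠ σ x}.Finite → ρ ≠ σ →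
    0 < ∑ᶠ e, J e * (σ (a e) * σ (b e) - ρ (a e) * ρ (b e))

/-- For almost every realisation of independent couplings with the laws `μ e` there is exactly one
pair `σ, -σ` of ground states. -/
def UniquePair (a b : E → V) (μ : E → Measure ℝ) [∀ e, IsProbabilityMeasure (μ e)] : Prop :=
  ∀ᵐ J ∂(Measure.infinitePi μ), ∃ σ : V → ℝ, {ρ | IsGroundState a b J ρ} = {σ, -σ}

/-- The energy of the bonds with at least one end in `B`. -/
noncomputable def energy (a b : E → V) (J : E → ℝ) (B : Finset V) (ρ : V → ℝ) : ℝ :=
  -∑ᶠ (e : E) (_ : a e ∈ B ∨ b e ∈ B), J e * (ρ (a e) * ρ (b e))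

/-- The least energy of the configurations which are equal to `η` outside `B` and have the product
`s` at the ends of the bond `e`. -/
noncomputable def minEnergy (a b : E → V) (J : E → ℝ) (B : Finset V) (e : E) (s : ℝ)
    (η : V → ℝ) : ℝ :=
  sInf {x | ∃ ρ, IsConfiguration ρ ∧ (∀ v, v ∉ B → ρ v = η v) ∧ ρ (a e) * ρ (b e) = s ∧
    x = energy a b J B ρ}

open Classical in
/-- The couplings `J` with the coupling of `e` replaced by `0`. -/
noncomputable def setZero (J : E → ℝ) (e : E) : E → ℝ := fun f => if f = e then 0 else J f

/-- The critical value of the coupling of `e` in `B` with the boundary condition `η`: the ground state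
has the product `1` at the ends of `e` if `J e` is larger, and `-1` if it is smaller. -/
noncomputable def criticalValue (a b : E → V) (J : E → ℝ) (B : Finset V) (e : E)
    (η : V → ℝ) : ℝ :=
  (minEnergy a b (setZero J e) B e 1 η - minEnergy a b (setZero J e) B e (-1) η) / 2

/-- The critical values of the coupling of `e` in `B` for all boundary conditions. -/
def criticalValues (a b : E → V) (J : E → ℝ) (B : Finset V) (e : E) : Set ℝ :=
  {x | ∃ η, IsConfiguration η ∧ x = criticalValue a b J B e η}

/-- The least critical value. -/
noncomputable def lowest (a b : E → V) (J : E → ℝ) (B : Finset V) (e : E) : ℝ :=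
  sInf (criticalValues a b J B e)

/-- The greatest critical value. -/
noncomputable def highest (a b : E → V) (J : E → ℝ) (B : Finset V) (e : E) : ℝ :=
  sSup (criticalValues a b J B e)

/-- The set of the bonds with exactly one end in `B`. -/
def boundary (a b : E → V) (B : Finset V) : Set E := {e | ¬ (a e ∈ B ↔ b e ∈ B)}

open Pool.Agent.K3h91.CV

lemma IsGraph.gr {a b : E → V} (h : IsGraph a b) : Gr a b := ⟨h.1, h.2, h.3⟩

lemma energy_eq {a b : E → V} (hf : ∀ x, {e | a e = x ∨ b e = x}.Finite) (J : E → ℝ)
    (B : Finset V) (ρ : V → ℝ) : energy a b J B ρ = En hf J B ρ := by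
  have h := finsum_mem_coe_finset (fun e => J e * (ρ (a e) * ρ (b e))) (tb hf B)
  simp only [Finset.mem_coe, mem_tb] at h
  unfold energy En
  rw [h]

lemma minEnergy_eq {a b : E → V} (hf : ∀ x, {e | a e = x ∨ b e = x}.Finite) (J : E → ℝ)
    (B : Finset V) (e : E) (s : ℝ) (η : V → ℝ) :
    minEnergy a b J B e s η = ME hf J B e s η := by
  unfold minEnergy ME Es Cl
  congr 1
  ext x
  simp only [Set.mem_ofPred_eq, energy_eq hf]
  constructor
  · rintro ⟨ρ, h1, h2, h3, h4⟩
    exact ⟨ρ, ⟨h1, h2⟩, h3, h4⟩
  · rintro ⟨ρ, ⟨h1, h2⟩, h3, h4⟩
    exact ⟨ρ, h1, h2, h3, h4⟩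

open Classical in
lemma criticalValue_eq {a b : E → V} (hf : ∀ x, {e | a e = x ∨ b e = x}.Finite) (J : E → ℝ)
    (B : Finset V) (e : E) (η : V → ℝ) : criticalValue a b J B e η = cv hf J B e η := by
  unfold criticalValue cv
  have h : setZero J e = Function.update J e 0 := by
    funext f
    unfold setZero
    by_cases hf : f = e
    · subst hf
      simp
    · rw [if_neg hf, Function.update_of_ne hf]
  rw [minEnergy_eq hf, minEnergy_eq hf, h]

open Classical in
lemma lowest_eq {a b : E → V} (hf : ∀ x, {e | a e = x ∨ b e = x}.Finite) (J : E → ℝ)
    (B : Finset V) (e : E) : lowest a b J B e = lo hf J B e := by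
  unfold lowest lo criticalValues cs
  simp only [criticalValue_eq hf]
  rfl

open Classical in
lemma highest_eq {a b : E → V} (hf : ∀ x, {e | a e = x ∨ b e = x}.Finite) (J : E → ℝ)
    (B : Finset V) (e : E) : highest a b J B e = hi hf J B e := by
  unfold highest hi criticalValues cs
  simp only [criticalValue_eq hf]
  rfl

lemma boundary_eq {a b : E → V} (hf : ∀ x, {e | a e = x ∨ b e = x}.Finite) (B : Finset V) :
    boundary a b B = (bd hf B : Set E) := by
  classical
  ext e
  unfold boundary bd
  simp only [Set.mem_ofPred_eq, Finset.coe_filter, mem_tb]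
  tauto

lemma unique_iff' {a b : E → V} (μ : E → Measure ℝ) [∀ e, IsProbabilityMeasure (μ e)] :
    UniquePair a b μ ↔ ∀ᵐ J ∂(Measure.infinitePi μ), Uni a b J := Iff.rfl

lemma ncard_boundary {a b : E → V} (hf : ∀ x, {e | a e = x ∨ b e = x}.Finite) (B : Finset V) :
    (boundary a b B).ncard = (bd hf B).card := by
  rw [boundary_eq hf, Set.ncard_coe_finset]

/-- **Theorem.** Consider an infinite connected locally finite graph and independent couplings with
atomless laws `μ e`.

(1) Let `B` be a finite set of sites and `e` a bond with an end `a e ∈ B`. For every boundary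
condition `η` the least energy with product `-1` at `e` exceeds the least energy with product `1` by
`2 (J e - criticalValue)`. The interval `[lowest, highest]` of the critical values of `e` in `B`
decreases if `B` increases.

(2) There is almost surely exactly one pair of ground states if and only if for every bond `e`,
almost surely, the infimum over `B` of the `μ e`-measure of `[lowest, highest]` is zero.

(3) There is almost surely exactly one pair of ground states if for every bond `e`, almost surely,
the infimum over `B` of the length of `[lowest, highest]` is zero. The converse is also true if the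
laws have full support.

(4) There is almost surely exactly one pair of ground states if almost surely every finite set of
sites is contained in finite sets `B` with arbitrarily small `∑ |J e|`, the sum over the boundary of
`B` (that is, if the maximal flow to infinity with the capacities `|J e|` is zero).

(5) This is so if there are finite sets `B n` which exhaust the sites, with pairwise disjoint
boundaries of sizes `c n`, such that for every `ε > 0` the sum over `n` of the probabilities that
all couplings in the boundary of `B n` are in `(- ε / c n, ε / c n)` is infinite; for iid couplings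
of law `ν` these are `ν (- ε / c n, ε / c n) ^ c n`. -/
theorem result [Countable V] [Countable E] [Infinite V] (a b : E → V) (hG : IsGraph a b)
    (μ : E → Measure ℝ) [∀ e, IsProbabilityMeasure (μ e)] (hatom : ∀ e x, μ e {x} = 0) :
    (∀ (J : E → ℝ) (e : E) (B : Finset V), a e ∈ B →
      (∀ η, IsConfiguration η → minEnergy a b J B e (-1) η - minEnergy a b J B e 1 η =
        2 * (J e - criticalValue a b J B e η)) ∧
      ∀ B' : Finset V, B ⊆ B' →
        lowest a b J B e ≤ lowest a b J B' e ∧ lowest a b J B' e ≤ highest a b J B' e ∧
          highest a b J B' e ≤ highest a b J B e) ∧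
    (UniquePair a b μ ↔ ∀ e, ∀ᵐ J ∂(Measure.infinitePi μ), ∀ ε : ℝ, 0 < ε →
      ∃ B : Finset V, a e ∈ B ∧
        (μ e).real (Set.Icc (lowest a b J B e) (highest a b J B e)) ≤ ε) ∧
    (((∀ e, ∀ᵐ J ∂(Measure.infinitePi μ), ∀ ε : ℝ, 0 < ε →
        ∃ B : Finset V, a e ∈ B ∧ highest a b J B e - lowest a b J B e ≤ ε) →
        UniquePair a b μ) ∧
      ((∀ (e : E) (p q : ℝ), p < q → 0 < μ e (Set.Ioo p q)) → UniquePair a b μ →
        ∀ e, ∀ᵐ J ∂(Measure.infinitePi μ), ∀ ε : ℝ, 0 < ε →
          ∃ B : Finset V, a e ∈ B ∧ highest a b J B e - lowest a b J B e ≤ ε)) ∧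
    ((∀ᵐ J ∂(Measure.infinitePi μ), ∀ (A : Finset V) (ε : ℝ), 0 < ε → ∃ B : Finset V, A ⊆ B ∧
        ∑ᶠ (e : E) (_ : e ∈ boundary a b B), |J e| < ε) →
      UniquePair a b μ) ∧
    (∀ B : ℕ → Finset V, (∀ v, ∀ᶠ n in atTop, v ∈ B n) →
      (∀ m n, m ≠ n → Disjoint (boundary a b (B m)) (boundary a b (B n))) →
      (∀ ε : ℝ, 0 < ε → ¬ Summable fun n => (Measure.infinitePi μ).real
        {J | ∀ e ∈ boundary a b (B n), |J e| < ε / (boundary a b (B n)).ncard}) →
      UniquePair a b μ) := by
  classical
  have hg := hG.gr
  simp only [unique_iff', lowest_eq hg.fib, highest_eq hg.fib]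
  refine ⟨?_, ⟨?_, ?_⟩, ⟨?_, ?_⟩, ?_, ?_⟩
  · intro J e B h0
    refine ⟨fun η hη => ?_, fun B' hB => ⟨lo_mono (hg.loop e) h0 hB,
      lo_le_hi (hg.loop e) (hB h0), hi_mono (hg.loop e) h0 hB⟩⟩
    rw [minEnergy_eq hg.fib, minEnergy_eq hg.fib, criticalValue_eq hg.fib]
    exact ME_diff (hg.loop e) h0 hη
  · intro h e
    filter_upwards [thin_of_uni μ hg hatom h] with J hJ
    exact hJ e
  · intro h
    refine uni_of_thin μ hg hatom ?_
    exact (ae_all_iff.2 h)
  · intro h
    refine uni_of_van μ hg hatom ?_
    exact (ae_all_iff.2 h)
  · intro hfull h e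
    filter_upwards [van_of_uni μ hg hatom (fun e p q hpq => (hfull e p q hpq).ne') h] with J hJ
    exact hJ e
  · intro h
    refine uni_of_cheap μ hg hatom ?_
    filter_upwards [h] with J hJ A ε hε
    obtain ⟨B, hAB, hB⟩ := hJ A ε hε
    refine ⟨B, hAB, ?_⟩
    rw [boundary_eq hg.fib, finsum_mem_coe_finset] at hB
    exact hB
  · intro B hex hdis hs
    refine uni_of_cut μ hg hatom B hex (fun m n hmn => ?_) (fun ε hε => ?_)
    · have h1 := hdis m n hmn
      rw [boundary_eq hg.fib, boundary_eq hg.fib, Finset.disjoint_coe] at h1
      exact h1
    · have h1 := hs ε hε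
      intro h2
      apply h1
      refine h2.congr fun n => ?_
      rw [ncard_boundary hg.fib]
      have h3 : {J : E → ℝ | ∀ e ∈ boundary a b (B n), |J e| < ε / (bd hg.fib (B n)).card} =
          Win (bd hg.fib (B n)) (Set.Ioo (-(ε / (bd hg.fib (B n)).card))
            (ε / (bd hg.fib (B n)).card)) := by
        ext J
        unfold Win
        simp only [Set.mem_ofPred_eq, Set.mem_pi, boundary_eq hg.fib, Set.mem_Ioo, abs_lt]
      rw [h3, Measure.real, Win_prob μ _ measurableSet_Ioo, ENNReal.toReal_prod]
      rfl

end Pool.Agent.Results.MP_37ff18_mp.CriticalValues
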