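import Pool.Agent.K3h91.EA.Fin

/-!
# Edwards-Anderson ground states on horns and on regions with necks in `ℤ^(k+1)`

The sites are the points of `ℤ^(k + 1)`; the bond `(v, i)` joins `v` and `v + e_i`, as in the frozen
statement of the problem. For every symmetric atomless law of the couplings there is almost surely
exactly one pair of ground states on the horn of width `w n` if `w n ^ (k + 1) ≤ c log n`; for laws
with polynomially likely small or large couplings (for instance Gaussian laws) it is enough that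
`w n ^ k * log (w n) ≤ c log n`. Between infinitely many narrow necks the region can be arbitrary.
(The starting theorem `UnboundedWidth` needs `w n ^ (2 k) = o (log n)`.)

Outline. Consider `ℓ` consecutive columns, each of them a box of side `N = 2 m + 1` in `ℤ^k`, such
that the couplings between them and the columns before and behind are in `(0, a)` and all their other
couplings are larger than `b ≥ a`. Let `2 N a ≤ ℓ b`. Then every ground state is constant on these
`ℓ` columns: by a linear isoperimetric inequality for the box a minority of `h` sites in a column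
costs at least `h / N` unsatisfied bonds, and the numbers of minority sites of two columns differ by
at most the number of unsatisfied bonds between them, so the total number `U` of unsatisfied bonds
in the columns satisfies `a (h' + h'') ≤ b U`, with `h'` and `h''` the numbers of sites with the
sign opposite to the majority in the column with the smallest minority, in the first and in the last
column. So one can make the `ℓ` columns constant without an increase of the energy. With `a = b` one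
has `ℓ = 2 N`; for the other laws one takes `ℓ = 1` and `b = 2 N a`.
-/

set_option autoImplicit false

open MeasureTheory Filter

namespace Pool.Agent.Results.MP_37ff18_mp.HornsAndNecks

/-- A spin configuration on the region `R`: it is `1` or `-1` at the sites of `R`, and `0` at the
other sites (so that the bonds which leave `R` do not contribute to the energy). -/
def IsConfiguration {k : ℕ} (R : Set (Fin (k + 1) → ℤ)) (σ : (Fin (k + 1) → ℤ) → ℝ) : Prop :=
  (∀ v ∈ R, σ v = 1 ∨ σ v = -1) ∧ ∀ v, v ∉ R → σ v = 0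

/-- `σ` is an infinite-volume ground state on `R` for the couplings `J`: every change at finitely
many sites of `R` (at least one) increases the energy `- ∑ J (v, i) σ v σ (v + e_i)`. -/
def IsGroundState {k : ℕ} (R : Set (Fin (k + 1) → ℤ))
    (J : (Fin (k + 1) → ℤ) × Fin (k + 1) → ℝ) (σ : (Fin (k + 1) → ℤ) → ℝ) : Prop :=
  IsConfiguration R σ ∧ ∀ ρ : (Fin (k + 1) → ℤ) → ℝ, IsConfiguration R ρ →
    {v | ρ v ≠ σ v}.Finite → ρ ≠ σ →
      0 < ∑ᶠ e : (Fin (k + 1) → ℤ) × Fin (k + 1),
        J e * (σ e.1 * σ (e.1 + (Pi.single e.2 (1 : ℤ) : Fin (k + 1) → ℤ))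
          - ρ e.1 * ρ (e.1 + (Pi.single e.2 (1 : ℤ) : Fin (k + 1) → ℤ)))

/-- For almost every realisation of i.i.d. couplings of law `μ` on the bonds of `ℤ^(k + 1)` there is
exactly one pair `σ, -σ` of ground states on `R`. -/
def UniquePair {k : ℕ} (R : Set (Fin (k + 1) → ℤ)) (μ : Measure ℝ) [IsProbabilityMeasure μ] :
    Prop :=
  ∀ᵐ J ∂(Measure.infinitePi fun _ : (Fin (k + 1) → ℤ) × Fin (k + 1) => μ),
    ∃ σ : (Fin (k + 1) → ℤ) → ℝ, {ρ | IsGroundState R J ρ} = {σ, -σ}

/-- The horn: the points `v` of `ℤ^(k + 1)` with `v 0 ≥ 0` and `|v i| ≤ w (v 0)` for all `i ≠ 0`. -/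
def horn (k : ℕ) (w : ℕ → ℕ) : Set (Fin (k + 1) → ℤ) :=
  {v | 0 ≤ v 0 ∧ ∀ i : Fin k, |v i.succ| ≤ (w (v 0).toNat : ℤ)}

/-- A region of `ℤ^(k + 1)`: for every `z` only finitely many of its sites have `v 0 ≤ z`, and it
has no finite component. -/
structure IsRegion {k : ℕ} (R : Set (Fin (k + 1) → ℤ)) : Prop where
  finite_left : ∀ z : ℤ, {v | v ∈ R ∧ v 0 ≤ z}.Finite
  no_island : ∀ D : Finset (Fin (k + 1) → ℤ), D.Nonempty → (∀ v ∈ D, v ∈ R) →
    ∃ v ∈ D, ∃ u ∈ R, u ∉ D ∧ ∃ i : Fin (k + 1),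
      u = v + (Pi.single i (1 : ℤ) : Fin (k + 1) → ℤ) ∨
      v = u + (Pi.single i (1 : ℤ) : Fin (k + 1) → ℤ)

/-- `R` has a neck of radius `m` and length `L` at `z`: for `z ≤ v 0 < z + L` the site `v` belongs
to `R` if and only if `|v i| ≤ m` for all `i ≠ 0`. -/
def Neck {k : ℕ} (R : Set (Fin (k + 1) → ℤ)) (z : ℤ) (L m : ℕ) : Prop :=
  ∀ v : Fin (k + 1) → ℤ, z ≤ v 0 → v 0 < z + L → (v ∈ R ↔ ∀ i : Fin k, |v i.succ| ≤ (m : ℤ))

/-- There is an `A` such that for every `t ≥ 2` some `a > 0` satisfies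
`μ (0, a) * μ (t a, ∞) ≥ t ^ (-A)`. -/
def Spread (μ : Measure ℝ) : Prop :=
  ∃ A : ℕ, ∀ t : ℝ, 2 ≤ t → ∃ a : ℝ, 0 < a ∧
    1 ≤ t ^ A * (μ.real (Set.Ioo 0 a) * μ.real (Set.Ioi (t * a)))

open Pool.Agent.K3h91.EA Pool.Agent.TH761.EB in
lemma front {k : ℕ} {R : Set (Fin (k + 1) → ℤ)} (hR : IsRegion R)
    (D : Finset (Fin (k + 1) → ℤ)) (hD : D.Nonempty) (hDR : (D : Set (Fin (k + 1) → ℤ)) ⊆ R) :
    ∃ e : LB k, (aa e ∈ D ∧ bb e ∈ R ∧ bb e ∉ D) ∨ (bb e ∈ D ∧ aa e ∈ R ∧ aa e ∉ D) := by
  obtain ⟨v, hv, u, hu, huD, i, hi | hi⟩ := hR.no_island D hD (fun v hv => hDR hv)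
  · exact ⟨(v, i), Or.inl ⟨hv, by rw [show bb (v, i) = u from hi.symm]; exact hu,
      by rw [show bb (v, i) = u from hi.symm]; exact huD⟩⟩
  · exact ⟨(u, i), Or.inr ⟨by rw [show bb (u, i) = v from hi.symm]; exact hv, hu, huD⟩⟩

/-- **Theorem.** Let `μ` be a symmetric probability measure on `ℝ` without atoms.

(1) There is a constant `C` such that
* for every nondecreasing `w` with `C * w n ^ (k + 1) ≤ log n` for all large `n` there is almost
  surely exactly one pair of ground states on the horn of width `w` in `ℤ^(k + 1)`;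
* for every region `R` which has, for all `j`, a neck of radius `m j` and length `4 m j + 4` at
  `z j`, where `z j + 4 m j + 4 ≤ z (j + 1)` and `∑ exp (- C (m j + 1) ^ (k + 1)) = ∞`, there is
  almost surely exactly one pair of ground states on `R`.

(2) If `μ` is spread, there is a constant `C` such that
* for every nondecreasing `w` with `C * w n ^ k * log (w n + 1) ≤ log n` for all large `n` there is
  almost surely exactly one pair of ground states on the horn of width `w`;
* for every region `R` which has, for all `j`, a neck of radius `m j` and length `3` at `z j`, where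
  `z j + 3 ≤ z (j + 1)` and `∑ exp (- C (m j + 1) ^ k log (m j + 2)) = ∞`, there is almost surely
  exactly one pair of ground states on `R`.

(3) `μ` is spread if `μ (0, ε) ≥ ε ^ A` for all small `ε > 0`, or if `μ (x, ∞) ≥ x ^ (- A)` for all
large `x`, for some `A`. All centred Gaussian laws are spread. -/
theorem result (k : ℕ) (μ : Measure ℝ) [IsProbabilityMeasure μ]
    (hatom : ∀ x : ℝ, μ {x} = 0) (hsym : μ.map (fun x => -x) = μ) :
    (∃ C : ℝ, 0 < C ∧
      (∀ w : ℕ → ℕ, Monotone w →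
        (∀ᶠ n : ℕ in atTop, C * (w n : ℝ) ^ (k + 1) ≤ Real.log n) → UniquePair (horn k w) μ) ∧
      ∀ R : Set (Fin (k + 1) → ℤ), IsRegion R → ∀ (z : ℕ → ℤ) (m : ℕ → ℕ),
        (∀ j, Neck R (z j) (4 * m j + 4) (m j)) → (∀ j, z j + (4 * m j + 4) ≤ z (j + 1)) →
        (¬ Summable fun j => Real.exp (-(C * ((m j : ℝ) + 1) ^ (k + 1)))) → UniquePair R μ) ∧
    (Spread μ → ∃ C : ℝ, 0 < C ∧
      (∀ w : ℕ → ℕ, Monotone w →
        (∀ᶠ n : ℕ in atTop, C * ((w n : ℝ) ^ k * Real.log ((w n : ℝ) + 1)) ≤ Real.log n) →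
        UniquePair (horn k w) μ) ∧
      ∀ R : Set (Fin (k + 1) → ℤ), IsRegion R → ∀ (z : ℕ → ℤ) (m : ℕ → ℕ),
        (∀ j, Neck R (z j) 3 (m j)) → (∀ j, z j + 3 ≤ z (j + 1)) →
        (¬ Summable fun j => Real.exp (-(C * (((m j : ℝ) + 1) ^ k * Real.log ((m j : ℝ) + 2))))) →
        UniquePair R μ) ∧
    ((∃ (A : ℕ) (ε₀ : ℝ), 0 < ε₀ ∧ ∀ ε : ℝ, 0 < ε → ε < ε₀ → ε ^ A ≤ μ.real (Set.Ioo 0 ε)) →
      Spread μ) ∧
    ((∃ (A : ℕ) (x₀ : ℝ), ∀ x : ℝ, x₀ < x → 1 ≤ x ^ A * μ.real (Set.Ioi x)) → Spread μ) ∧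
    ∀ v : NNReal, v ≠ 0 → Spread (ProbabilityTheory.gaussianReal 0 v) := by
  obtain ⟨c, N, hc, hcN, h0, h1⟩ := Pool.Agent.TH761.EA.two_windows μ hatom hsym
  have h0' : 0 < μ.real (Set.Ioo 0 c) := ENNReal.toReal_pos h0.ne' (measure_ne_top _ _)
  have h1' : 0 < μ.real (Set.Ioi c) :=
    ENNReal.toReal_pos (h1.trans_le (measure_mono Set.Ioo_subset_Ioi_self)).ne'
      (measure_ne_top _ _)
  refine ⟨?_, ?_, ?_, ?_, ?_⟩
  · obtain ⟨C, hC2, hB⟩ := Pool.Agent.K3h91.EA.blocks_long μ k hc h0' h1'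
    have hC : C ≤ 8 * C * 2 ^ (k + 1) := by
      have h2 : (1 : ℝ) ≤ 2 ^ (k + 1) := one_le_pow₀ (by norm_num)
      nlinarith
    refine ⟨8 * C * 2 ^ (k + 1), by positivity, fun w hw hgr => ?_,
      fun R hR z m hneck hsep hdiv => ?_⟩
    · exact Pool.Agent.K3h91.EA.horn_long μ hatom hC2 hB hw hgr
    · refine Pool.Agent.K3h91.EA.neck_gen μ hatom hR.finite_left (front hR) hB
        (Ψ := fun m => 8 * C * 2 ^ (k + 1) * ((m : ℝ) + 1) ^ (k + 1)) (fun m => ?_)
        (fun j v hv1 hv2 => hneck j v hv1 (by push_cast at hv2 ⊢; omega))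
        (fun j => ?_) hdiv
      · exact mul_le_mul_of_nonneg_right hC (by positivity)
      · have := hsep j
        push_cast
        omega
  · rintro ⟨A, hA⟩
    obtain ⟨C, hC2, hB⟩ := Pool.Agent.K3h91.EA.blocks_short μ k hA
    have hC : C ≤ 8 * C * 2 ^ (k + 1) := by
      have h2 : (1 : ℝ) ≤ 2 ^ (k + 1) := one_le_pow₀ (by norm_num)
      nlinarith
    refine ⟨8 * C * 2 ^ (k + 1), by positivity, fun w hw hgr => ?_,
      fun R hR z m hneck hsep hdiv => ?_⟩
    · exact Pool.Agent.K3h91.EA.horn_short μ hatom hC2 hB hw hgr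
    · refine Pool.Agent.K3h91.EA.neck_gen μ hatom hR.finite_left (front hR) hB
        (Ψ := fun m => 8 * C * 2 ^ (k + 1) * (((m : ℝ) + 1) ^ k * Real.log ((m : ℝ) + 2)))
        (fun m => ?_)
        (fun j v hv1 hv2 => hneck j v hv1 (by push_cast at hv2 ⊢; omega))
        (fun j => ?_) hdiv
      · refine mul_le_mul_of_nonneg_right hC (mul_nonneg (by positivity) (Real.log_nonneg ?_))
        have : (0 : ℝ) ≤ m := Nat.cast_nonneg m
        linarith
      · have := hsep j
        push_cast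
        omega
  · rintro ⟨A, ε₀, hε₀, h⟩
    exact Pool.Agent.K3h91.EA.spr_small μ hc h1' hε₀ h
  · rintro ⟨A, x₀, h⟩
    exact Pool.Agent.K3h91.EA.spr_large μ hc h0' h
  · exact fun v hv => Pool.Agent.K3h91.EA.spr_gauss v hv

end Pool.Agent.Results.MP_37ff18_mp.HornsAndNecks
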