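import Pool.Agent.K3h93.EF.Lim

set_option autoImplicit false

/-!
# Edwards-Anderson ground states in boxes of the plane: universality of the bond expectations

The couplings are iid with any law without atoms and with a finite first moment. For every `n` let
`σ_n` be a ground state in the box `[0, n] ^ 2` with an arbitrary boundary term: free, periodic,
antiperiodic or fixed boundary conditions, or any other function of the spins at the boundary of
the box and of the couplings outside of the box.

**Theorem.** There are two functions `m_0`, `m_1` of the couplings with values in `[-1, 1]`, which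
do not depend on the boundary terms, such that for most positions `a` of the box the conditional
expectation of `σ_n(a) σ_n(a + e_i)`, given the couplings in any fixed finite window around `a`, is
close (in `L¹`) to the corresponding conditional expectation of `m_i`, seen from `a`. Here most
positions means that the average over all positions of the `L¹` distances tends to `0` when
`n → ∞`. So, averaged over the translations, the joint laws of the couplings and of the product of
the spins at one bond converge along the whole sequence, and the limit is the same for all boundary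
conditions which do not depend on the couplings in the box.

In the statement the conditional expectations are tested by functions `φ n a` of the couplings in
a finite set `F` of bonds, which are bounded by one and may depend on `n` and `a`.

Proof. Let `Φ` be the difference of the ground state energies for two boundary terms in a large
window. When the couplings in a box of side `L` inside the window are changed then `Φ` changes at
most by `4` times the sum of the absolute values of the couplings across the boundary of the box.
On the other hand the law of the couplings can be tilted: the couplings in the blocks of side `N`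
get the density `1 + (H / L) g_b`, where `g_b` is a bounded centered function of the couplings in
the block `b`. For every `H` the density is bounded in `L²` uniformly in `L`, but the tilt of every
single block is small. By a pigeonhole argument there is a scale `L` such that, for most blocks,
the conditional expectation of `g_b Φ`, given the couplings up to the distance `L`, is already
determined by the couplings at a much smaller distance, up to a small error. So the expectations of
`g_b Φ` can be computed without the tilt of the other blocks, and the expectation of `Φ` changes by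
`H / L` times the sum of the expectations of `g_b Φ`. Hence the average of these expectations is of
order `1 / H`. Finally the spins at one bond are recovered from the change of the energy when one
coupling is resampled conditionally on being close to its old value: as the threshold of the
coupling does not depend on it, it lies between both values with small probability only.
-/

open MeasureTheory Filter Topology

namespace Pool.Agent.Results.MP_37ff18_mp.UniversalBondMeans

/-- The bond `(v, i)` joins the sites `v` and `v + e_i` of `ℤ²`. -/
abbrev Bond : Type := (Fin 2 → ℤ) × Fin 2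

/-- the box `[0, n] ^ 2` -/
def box (n : ℕ) : Set (Fin 2 → ℤ) := {x | ∀ i, 0 ≤ x i ∧ x i ≤ n}

/-- both ends of the bond are in the box `[0, n] ^ 2` -/
def InBox (n : ℕ) (e : Bond) : Prop :=
  e.1 ∈ box n ∧ e.1 + (Pi.single e.2 (1 : ℤ) : Fin 2 → ℤ) ∈ box n

/-- A boundary term for the box `[0, n] ^ 2`: an arbitrary (measurable) function of the couplings
outside of the box and of the spins at the boundary of the box. -/
structure IsBoundaryTerm (n : ℕ) (w : (Bond → ℝ) → ((Fin 2 → ℤ) → ℝ) → ℝ) : Prop where
  /-- it does not depend on the couplings in the box -/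
  couplings : ∀ J J' s, (∀ e, ¬ InBox n e → J e = J' e) → w J s = w J' s
  /-- it depends on the spins at the boundary of the box only -/
  spins : ∀ J s s', (∀ x ∈ box n, (∃ i, x i = 0 ∨ x i = n) → s x = s' x) → w J s = w J s'
  /-- measurability -/
  measurable : ∀ s, Measurable fun J => w J s

/-- the energy of the spins `s` in the box `[0, n] ^ 2` with the boundary term `w` -/
noncomputable def energy (n : ℕ) (w : (Bond → ℝ) → ((Fin 2 → ℤ) → ℝ) → ℝ) (J : Bond → ℝ)
    (s : (Fin 2 → ℤ) → ℝ) : ℝ :=
  w J s - ∑ᶠ (e : Bond) (_ : InBox n e),
    J e * (s e.1 * s (e.1 + (Pi.single e.2 (1 : ℤ) : Fin 2 → ℤ)))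

/-- `s` is a ground state in the box -/
def IsGroundState (n : ℕ) (w : (Bond → ℝ) → ((Fin 2 → ℤ) → ℝ) → ℝ) (J : Bond → ℝ)
    (s : (Fin 2 → ℤ) → ℝ) : Prop :=
  (∀ x, s x = 1 ∨ s x = -1) ∧
  ∀ s' : (Fin 2 → ℤ) → ℝ, (∀ x, s' x = 1 ∨ s' x = -1) → energy n w J s ≤ energy n w J s'

/-- the couplings seen from the site `a` -/
def seenFrom (a : Fin 2 → ℤ) (J : Bond → ℝ) : Bond → ℝ := fun e => J (e.1 + a, e.2)

open Pool.Agent.K3h93.EA Pool.Agent.K3h93.EF

lemma inBox_iff (n : ℕ) (e : Bond) : InBox n e ↔ e ∈ FB n := FB_iff.symm

lemma energy_eq (n : ℕ) (w : (Bond → ℝ) → ((Fin 2 → ℤ) → ℝ) → ℝ) (J : Bond → ℝ)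
    (s : (Fin 2 → ℤ) → ℝ) : energy n w J s = -HE n (fun J s => -w J s) J s := by
  unfold energy HE
  have h1 : ∑ᶠ (e : Bond) (_ : InBox n e),
      J e * (s e.1 * s (e.1 + (Pi.single e.2 (1 : ℤ) : Fin 2 → ℤ))) =
      ∑ e ∈ FB n, J e * bp s e := by
    simp only [inBox_iff]
    exact finsum_mem_finset_eq_sum _ _
  rw [h1]
  ring

lemma sq_of (μ : Measure ℝ) [IsProbabilityMeasure μ]
    {w : ℕ → (Bond → ℝ) → ((Fin 2 → ℤ) → ℝ) → ℝ} {σ : ℕ → (Bond → ℝ) → (Fin 2 → ℤ) → ℝ}
    (hw : ∀ n, IsBoundaryTerm n (w n)) (hσ : ∀ n, Measurable (σ n))
    (hg : ∀ n, ∀ᵐ J ∂(Measure.infinitePi fun _ : Bond => μ), IsGroundState n (w n) J (σ n J)) :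
    Sq μ (fun n J s => -w n J s) σ := by
  refine ⟨fun n => ⟨fun J J' s h => ?_, fun J s s' h => ?_, fun s => ?_⟩, hσ, fun n => ?_⟩
  · rw [(hw n).couplings J J' s fun e he => h e fun h' => he ((inBox_iff n e).2 h')]
  · rw [(hw n).spins J s s' h]
  · exact ((hw n).measurable s).neg
  · filter_upwards [hg n] with J hJ
    refine ⟨hJ.1, fun s' hs' => ?_⟩
    have h1 := hJ.2 s' hs'
    rw [energy_eq, energy_eq] at h1
    exact neg_le_neg_iff.1 h1

/-- **Universality of the bond expectations.** -/
theorem result (μ : Measure ℝ) [IsProbabilityMeasure μ] (hatom : ∀ x, μ {x} = 0)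
    (hmean : Integrable (fun x : ℝ => x) μ) :
    ∃ m : Fin 2 → (Bond → ℝ) → ℝ, (∀ i, Measurable (m i)) ∧ (∀ i J, |m i J| ≤ 1) ∧
      ∀ (w : ℕ → (Bond → ℝ) → ((Fin 2 → ℤ) → ℝ) → ℝ)
        (σ : ℕ → (Bond → ℝ) → (Fin 2 → ℤ) → ℝ),
        (∀ n, IsBoundaryTerm n (w n)) → (∀ n, Measurable (σ n)) →
        (∀ n, ∀ᵐ J ∂(Measure.infinitePi fun _ : Bond => μ), IsGroundState n (w n) J (σ n J)) →
        ∀ (i : Fin 2) (F : Finset Bond) (φ : ℕ → (Fin 2 → ℤ) → (Bond → ℝ) → ℝ),
          (∀ n a, Measurable (φ n a)) → (∀ n a J, |φ n a J| ≤ 1) →
          (∀ n a J J', (∀ e ∈ F, J e = J' e) → φ n a J = φ n a J') →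
          Tendsto (fun n : ℕ => (∑ a ∈ Fintype.piFinset (fun _ : Fin 2 => Finset.Ico (0 : ℤ) n),
            |∫ J, φ n a (seenFrom a J) *
                (σ n J a * σ n J (a + (Pi.single i (1 : ℤ) : Fin 2 → ℤ)))
                ∂(Measure.infinitePi fun _ : Bond => μ) -
              ∫ J, φ n a J * m i J ∂(Measure.infinitePi fun _ : Bond => μ)|) / (n : ℝ) ^ 2)
            atTop (𝓝 0) := by
  choose m hm hm1 huniv using fun i : Fin 2 => universal hmean hatom ((0, i) : E)
  refine ⟨m, hm, hm1, fun w σ hw hσ hg i F φ hφm hφ1 hφF => ?_⟩
  have h1 := huniv i _ σ (sq_of μ hw hσ hg) F φ fun n a =>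
    ⟨hφm n a, hφ1 n a, fun J J' hJ => hφF n a J J' fun e he => hJ e (Finset.mem_coe.2 he)⟩
  refine h1.congr fun n => ?_
  congr 1
  refine Finset.sum_congr rfl fun a _ => ?_
  have h2 : PL μ (φ n a) ((0, i) : E) (σ n) a = ∫ J, φ n a (seenFrom a J) *
                (σ n J a * σ n J (a + (Pi.single i (1 : ℤ) : Fin 2 → ℤ)))
                ∂(Measure.infinitePi fun _ : Bond => μ) := by
    unfold PL bp st
    simp only [zero_add]
    rfl
  rw [h2]

end Pool.Agent.Results.MP_37ff18_mp.UniversalBondMeans
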